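import Pool.Agent.Lib.MP_071ace_co.AK.Main

/-!
Almost all graphs which are independent in the generic 3-dimensional rigidity matroid (all of
them, the flexible ones, or those with a given number of degrees of freedom) are isostatic on
all but a bounded number of vertices, the other vertices induce a forest and have two private
neighbours each in the isostatic part; the closure of such a graph consists of its edges and of
one clique, and all its implied nonedges are in a `K_5` of the closure.
-/

set_option autoImplicit false

namespace Pool.Agent.Results.MP_071ace_co.AlmostAll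

open Pool.Agent.Lib.MP_071ace_co Pool.Agent.Lib.MP_071ace_co.AA

theorem result (D : Set ℕ) (hD : D.Nonempty) : ∃ C : ℕ, ∀ s ≥ 1, ∃ N : ℕ, ∀ n ≥ N,
    s * {G : SimpleGraph (Fin n) | (Independent G ∧ 3 * n - 6 - G.edgeSet.ncard ∈ D) ∧
      ¬ ∃ K, Typical s G K}.ncard ≤
      C * {G : SimpleGraph (Fin n) | Independent G ∧ 3 * n - 6 - G.edgeSet.ncard ∈ D}.ncard :=
  AK.main D hD

end Pool.Agent.Results.MP_071ace_co.AlmostAll
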