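import Pool.Agent.Lib.MP_071ace_co.Fin

/-!
An implied nonedge `uv` of an independent graph `G` lies in a `K_5` of the closure whenever at
most eleven vertices of `G + uv` have degree at least five.
-/

set_option autoImplicit false

namespace Pool.Agent.Results.MP_071ace_co.LargeDegrees

open Pool.Agent.Lib.MP_071ace_co

theorem result {V : Type*} [Finite V] [DecidableEq V] (G : SimpleGraph V) (u v : V)
    (h : Implied G u v)
    (hdeg : {x : V | 5 ≤ ((G ⊔ SimpleGraph.edge u v).neighborSet x).ncard}.ncard ≤ 11) :
    InK5 G u v :=
  few_large G u v h hdeg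

end Pool.Agent.Results.MP_071ace_co.LargeDegrees
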