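import Pool.Agent.Lib.MP_071ace_co.Fin

/-!
If an implied nonedge of an independent graph lies in no `K_5` of the closure, then the closure
contains a smallest circuit through it, and this circuit is 4-connected, flexible, has all
degrees at least five and at least twelve vertices of degree five, and has no vertex cut which
is almost rigid in the closure.
-/

set_option autoImplicit false

namespace Pool.Agent.Results.MP_071ace_co.SmallestCircuit

open Pool.Agent.Lib.MP_071ace_co

theorem result {V : Type*} [Finite V] [DecidableEq V] (G : SimpleGraph V) (u v : V)
    (h : Implied G u v) (hn : ¬ InK5 G u v) : ∃ C : SimpleGraph V, Critical C u v ∧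
      CL C ≤ CL G ∧
      (CL G = G ⊔ SimpleGraph.edge u v → CL C = C ∧ C ≤ G ⊔ SimpleGraph.edge u v) :=
  critical G u v h hn

end Pool.Agent.Results.MP_071ace_co.SmallestCircuit
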