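import Pool.Agent.Lib.MP_071ace_co.Fin

/-!
An implied nonedge `uv` of an independent graph `G` lies in a `K_5` of the closure whenever
`G + uv` has treewidth at most four.
-/

set_option autoImplicit false

namespace Pool.Agent.Results.MP_071ace_co.WidthFour

open Pool.Agent.Lib.MP_071ace_co

theorem result {V : Type*} [Finite V] [DecidableEq V] (G : SimpleGraph V) (u v : V)
    (h : Implied G u v) (T : SimpleGraph V) (ord : V → ℕ) (hT : Order4 T ord)
    (hGT : G ⊔ SimpleGraph.edge u v ≤ T) : InK5 G u v :=
  width_four G u v h T ord hT hGT

end Pool.Agent.Results.MP_071ace_co.WidthFour
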